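import Pool.Agent.Helper19.PU.Defs

/-!
# PU-2: the fields `Wm` are unit tangent fields
-/

open MeasureTheory Set Metric Filter Module
open scoped NNReal Topology RealInnerProductSpace ENNReal Real ContDiff Manifold

namespace Pool.Agent.Helper19.PU

variable {E : Type*} [NormedAddCommGroup E] [InnerProductSpace ℝ E]

private lemma P2_skew {J : E →L[ℝ] E} (hJ : CS J) (x y : E) : ⟪J x, y⟫ = -⟪x, J y⟫ := by
  have h := hJ.inner (x + y)
  rw [map_add, inner_add_left, inner_add_right, inner_add_right, hJ.inner x, hJ.inner y] at h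
  rw [real_inner_comm y (J x)]
  linarith

private lemma P2_map {J : E →L[ℝ] E} (hJ : CS J) (x y : E) : ⟪J x, J y⟫ = ⟪x, y⟫ := by
  rw [real_inner_eq_norm_add_mul_self_sub_norm_mul_self_sub_norm_mul_self_div_two,
    real_inner_eq_norm_add_mul_self_sub_norm_mul_self_sub_norm_mul_self_div_two, ← map_add,
    hJ.norm, hJ.norm, hJ.norm]

private lemma P2_bd {a x : E} (ha : ‖a‖ = 1) (hx : ‖x‖ = 1) :
    -1 ≤ ⟪a, x⟫ ∧ ⟪a, x⟫ ≤ 1 := by
  have h := abs_real_inner_le_norm a x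
  rw [ha, hx, mul_one] at h
  exact abs_le.1 h

theorem Dm_pos {a x : E} {μ : ℝ} (ha : ‖a‖ = 1) (hx : ‖x‖ = 1) (hμ : μ ≠ 0 ∨ x ≠ -a) :
    0 < Dm a μ x := by
  obtain ⟨h1, h2⟩ := P2_bd ha hx
  unfold Dm
  rcases hμ with hμ | hμ
  · have h3 : 0 < μ ^ 2 := by positivity
    rcases eq_or_lt_of_le h1 with h | h
    · rw [← h]; nlinarith
    · have : 0 ≤ μ ^ 2 * (1 - ⟪a, x⟫) := mul_nonneg h3.le (by linarith)
      linarith
  · have h3 : 0 < ‖x + a‖ ^ 2 := by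
      have : x + a ≠ 0 := fun h => hμ (eq_neg_of_add_eq_zero_left h)
      positivity
    have h4 : ‖x + a‖ ^ 2 = 2 * (1 + ⟪a, x⟫) := by
      rw [norm_add_sq_real, hx, ha, real_inner_comm]; ring
    have : 0 ≤ μ ^ 2 * (1 - ⟪a, x⟫) := mul_nonneg (sq_nonneg _) (by linarith)
    linarith

theorem inner_Wm {J : E →L[ℝ] E} (hJ : CS J) {a x : E} (ha : ‖a‖ = 1) (hx : ‖x‖ = 1) (μ : ℝ) :
    ⟪x, Wm J a μ x⟫ = 0 := by
  have h1 : ⟪x, Nm J a μ x⟫ = 0 := by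
    unfold Nm
    simp only [inner_add_right, inner_sub_right, inner_smul_right, hJ.inner x,
      real_inner_self_eq_norm_sq, hx, real_inner_comm a x, real_inner_comm (J a) x]
    ring
  rw [Wm, inner_smul_right, h1, mul_zero]

theorem norm_Wm {J : E →L[ℝ] E} (hJ : CS J) {a x : E} {μ : ℝ} (ha : ‖a‖ = 1) (hx : ‖x‖ = 1)
    (hμ : μ ≠ 0 ∨ x ≠ -a) : ‖Wm J a μ x‖ = 1 := by
  have hD := Dm_pos ha hx hμ
  have haa : ⟪a, a⟫ = 1 := by rw [real_inner_self_eq_norm_sq, ha]; norm_num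
  have hxx : ⟪x, x⟫ = 1 := by rw [real_inner_self_eq_norm_sq, hx]; norm_num
  have hbb : ⟪J a, J a⟫ = 1 := by rw [P2_map hJ, haa]
  have hyy : ⟪J x, J x⟫ = 1 := by rw [P2_map hJ, hxx]
  have hby : ⟪J a, J x⟫ = ⟪a, x⟫ := P2_map hJ a x
  have hyb : ⟪J x, J a⟫ = ⟪a, x⟫ := by rw [real_inner_comm, hby]
  have hab : ⟪a, J a⟫ = 0 := hJ.inner a
  have hba : ⟪J a, a⟫ = 0 := by rw [real_inner_comm, hab]
  have hxy : ⟪x, J x⟫ = 0 := hJ.inner x
  have hyx : ⟪J x, x⟫ = 0 := by rw [real_inner_comm, hxy]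
  have hxa : ⟪x, a⟫ = ⟪a, x⟫ := real_inner_comm _ _
  have hxb : ⟪x, J a⟫ = ⟪J a, x⟫ := real_inner_comm _ _
  have hay : ⟪a, J x⟫ = -⟪J a, x⟫ := by rw [P2_skew hJ a x]; ring
  have hya : ⟪J x, a⟫ = -⟪J a, x⟫ := by rw [real_inner_comm, hay]
  have h1 : ‖Nm J a μ x‖ ^ 2 = Dm a μ x ^ 2 := by
    rw [← real_inner_self_eq_norm_sq]
    unfold Nm Dm
    simp only [inner_add_right, inner_sub_right, inner_smul_right, inner_add_left, inner_sub_left,
      real_inner_smul_left, haa, hxx, hbb, hyy, hby, hyb, hab, hba, hxy, hyx, hxa, hxb, hay, hya]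
    ring
  have h2 : ‖Nm J a μ x‖ = Dm a μ x := by
    rw [← abs_of_nonneg (norm_nonneg _), ← abs_of_pos hD]
    exact sq_eq_sq_iff_abs_eq_abs _ _ |>.1 h1
  rw [Wm, norm_smul, h2, norm_inv, Real.norm_eq_abs, abs_of_pos hD, inv_mul_cancel₀ hD.ne']

end Pool.Agent.Helper19.PU
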